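import Pool.Agent.Helper67.NO.St4

/-! MODULE CBS of project NO: bases of a Lie algebra and their arrays. -/

set_option autoImplicit false

namespace Pool.Agent.Helper97.NO

open Pool.Agent.Helper67.NO
open Matrix
open scoped Matrix.Norms.Frobenius ContDiff Topology

universe u

section

variable {n : Type} [Fintype n] [DecidableEq n] {g : Type u} [LieRing g] [LieAlgebra ℂ g]

theorem cbs_apply (b : Module.Basis n ℂ g) (x : g) :
    adM b x = LinearMap.toMatrix b b (LieAlgebra.ad ℂ g x) := rfl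

theorem cbs_entry (b : Module.Basis n ℂ g) (x : g) (k j : n) :
    adM b x k j = b.repr ⁅x, b j⁆ k := by
  rw [cbs_apply, LinearMap.toMatrix_apply, LieAlgebra.ad_apply]

theorem cbs_sum (b : Module.Basis n ℂ g) (v : n → ℂ) :
    adM b (∑ j, v j • b j) = ∑ j, v j • arr b j := by
  simp only [arr, map_sum, map_smul]

theorem cbs_br (b : Module.Basis n ℂ g) (x y : g) :
    br (adM b x) (adM b y) = adM b ⁅x, y⁆ := by
  have h : LieAlgebra.ad ℂ g ⁅x, y⁆ = LieAlgebra.ad ℂ g x * LieAlgebra.ad ℂ g y
      - LieAlgebra.ad ℂ g y * LieAlgebra.ad ℂ g x := by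
    ext z
    simp
  rw [br, cbs_apply, cbs_apply, cbs_apply, ← LinearMap.toMatrix_mul, ← LinearMap.toMatrix_mul,
    ← map_sub, h]

theorem cbs_expand (b : Module.Basis n ℂ g) (x y : g) (v : n → ℂ)
    (h : ∀ j, v j = b.repr y j) : y = ∑ j, v j • b j := by
  conv_lhs => rw [← b.sum_repr y]
  exact Finset.sum_congr rfl fun j _ => by rw [h j]

/-- `x * e_i` in the basis -/
theorem cbs_bracket (b : Module.Basis n ℂ g) (x : g) (i : n) :
    ⁅x, b i⁆ = ∑ j, adM b x j i • b j :=
  cbs_expand b x _ _ fun j => cbs_entry b x j i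

theorem cbs_lie (b : Module.Basis n ℂ g) : IsLie (arr b) := by
  refine ⟨fun i j k => ?_, fun i j => ?_⟩
  · simp only [arr]
    rw [cbs_entry, cbs_entry, ← lie_skew (b i) (b j), map_neg]
    rfl
  · simp only [arr]
    rw [cbs_br, cbs_bracket, map_sum]
    simp only [map_smul]

theorem cbs_kil (b : Module.Basis n ℂ g) [FiniteDimensional ℂ g] [LieAlgebra.IsKilling ℂ g] :
    (Kil (arr b)).det ≠ 0 := by
  have h1 := (LinearMap.BilinForm.nondegenerate_iff_det_ne_zero b).1
    (LieAlgebra.IsKilling.killingForm_nondegenerate ℂ g)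
  have h2 : Kil (arr b) = LinearMap.BilinForm.toMatrix b (killingForm ℂ g) := by
    ext i j
    rw [LinearMap.BilinForm.toMatrix_apply, LieModule.traceForm_apply_apply,
      LinearMap.trace_eq_matrix_trace ℂ b]
    simp only [Kil, arr]
    rw [cbs_apply, cbs_apply, ← LinearMap.toMatrix_mul]
    rfl
  rw [h2]
  exact h1

/-- change of basis -/
theorem cbs_change (b : Module.Basis n ℂ g) (h : Matrix n n ℂ) (hh : IsUnit h) :
    ∃ b' : Module.Basis n ℂ g, arr b' = gact h (arr b) := by
  have hdet : IsUnit h.det := (Matrix.isUnit_iff_isUnit_det h).1 hh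
  have hinv : IsUnit (h⁻¹).det := Matrix.isUnit_nonsing_inv_det h hdet
  set b' : Module.Basis n ℂ g := b.map (Matrix.toLinearEquiv b h⁻¹ hinv) with hb'
  have h1 : ∀ i, b' i = ∑ j, h⁻¹ j i • b j := by
    intro i
    rw [hb', Module.Basis.map_apply]
    exact Matrix.toLin_self b b h⁻¹ i
  have h2 : b.toMatrix b' = h⁻¹ := by
    ext j i
    rw [Module.Basis.toMatrix_apply, h1, map_sum]
    simp [Finsupp.single_apply, Module.Basis.repr_self]
  have h3 : b'.toMatrix b = h := by
    have h4 : b'.toMatrix b * b.toMatrix b' = 1 := Module.Basis.toMatrix_mul_toMatrix_flip _ _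
    rw [h2] at h4
    calc b'.toMatrix b = b'.toMatrix b * (h⁻¹ * h) := by
          rw [Matrix.nonsing_inv_mul h hdet, Matrix.mul_one]
      _ = h := by rw [← Matrix.mul_assoc, h4, Matrix.one_mul]
  refine ⟨b', ?_⟩
  have h5 : ∀ x : g, adM b' x = h * adM b x * h⁻¹ := by
    intro x
    rw [cbs_apply, cbs_apply,
      ← basis_toMatrix_mul_linearMap_toMatrix_mul_basis_toMatrix b' b b' b (LieAlgebra.ad ℂ g x),
      h2, h3]
  funext i
  have h6 : arr b' i = adM b' (∑ j, h⁻¹ j i • b j) := by
    rw [← h1]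
    rfl
  rw [h6, map_sum, gact]
  refine Finset.sum_congr rfl fun j _ => ?_
  rw [map_smul, h5]
  rfl

/-- derivations are inner -/
theorem cbs_der (b : Module.Basis n ℂ g) [FiniteDimensional ℂ g] [LieAlgebra.IsKilling ℂ g]
    (D : Matrix n n ℂ) (hD : dact D (arr b) = 0) : ∃ x : g, adM b x = D := by
  set d : g →ₗ[ℂ] g := Matrix.toLin b b D with hd
  have hdD : LinearMap.toMatrix b b d = D := LinearMap.toMatrix_toLin b b D
  have h1 : ∀ i, br D (adM b (b i)) = adM b (d (b i)) := by
    intro i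
    have h2 := congrFun hD i
    rw [dact, Pi.zero_apply, sub_eq_zero] at h2
    rw [hd, Matrix.toLin_self, cbs_sum]
    exact h2
  have h3 : ∀ x, br D (adM b x) = adM b (d x) := by
    intro x
    have h4 : (LinearMap.mulLeft ℂ D - LinearMap.mulRight ℂ D) ∘ₗ adM b = adM b ∘ₗ d := by
      apply b.ext
      intro i
      exact h1 i
    exact congrArg (fun f => f x) h4
  have h5 : ∀ x y, d ⁅x, y⁆ = ⁅x, d y⁆ - ⁅y, d x⁆ := by
    intro x y
    have h6 := h3 x
    rw [br, cbs_apply, cbs_apply, ← hdD, ← LinearMap.toMatrix_mul, ← LinearMap.toMatrix_mul,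
      ← map_sub] at h6
    have h7 := (LinearMap.toMatrix b b).injective h6
    have h8 := congrArg (fun f => f y) h7
    simp only [LinearMap.sub_apply, Module.End.mul_apply, LieAlgebra.ad_apply] at h8
    rw [← lie_skew y (d x), sub_neg_eq_add, ← h8]
    abel
  obtain ⟨x, hx⟩ := LieDerivation.IsKilling.exists_eq_ad (⟨d, h5⟩ : LieDerivation ℂ g g)
  refine ⟨x, ?_⟩
  rw [cbs_apply, ← hdD]
  congr 1
  ext y
  have h9 := congrArg (fun f : LieDerivation ℂ g g => f y) hx
  simp only [LieDerivation.ad_apply_apply] at h9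
  exact h9

theorem cbs_dact (b : Module.Basis n ℂ g) (x : g) : dact (adM b x) (arr b) = 0 := by
  funext i
  rw [dact, Pi.zero_apply, sub_eq_zero, ← cbs_sum, ← cbs_bracket, ← cbs_br]
  rfl

end

section

variable {n : Type} [Fintype n] [DecidableEq n]

/-- the constant curve: if `[X, N E] = N (X E)` for all `E`, then `exp (-X) N(exp X) exp X = N 1` -/
theorem cbs_exp (X : Matrix n n ℂ) (N : Matrix n n ℂ →ₗ[ℂ] Matrix n n ℂ)
    (hN : ∀ E, br X (N E) = N (X * E)) :
    NormedSpace.exp (-X) * N (NormedSpace.exp X) * NormedSpace.exp X = N 1 := by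
  set N' : Matrix n n ℂ →L[ℂ] Matrix n n ℂ := LinearMap.toContinuousLinearMap N with hN'
  have hNN : ∀ E, N' E = N E := fun E => rfl
  set f : ℂ → Matrix n n ℂ := fun t =>
    NormedSpace.exp (t • (-X)) * N' (NormedSpace.exp (t • X)) * NormedSpace.exp (t • X) with hf
  have hd : ∀ t, HasDerivAt f 0 t := by
    intro t
    have d1 : HasDerivAt (fun t : ℂ => NormedSpace.exp (t • (-X)))
        (NormedSpace.exp (t • (-X)) * (-X)) t := hasDerivAt_exp_smul_const (-X) t
    have d2 : HasDerivAt (fun t : ℂ => NormedSpace.exp (t • X))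
        (X * NormedSpace.exp (t • X)) t := hasDerivAt_exp_smul_const' X t
    have d3 : HasDerivAt (fun t : ℂ => N' (NormedSpace.exp (t • X)))
        (N' (X * NormedSpace.exp (t • X))) t := N'.hasFDerivAt.comp_hasDerivAt t d2
    have d4 := (d1.mul d3).mul d2
    refine d4.congr_deriv ?_
    rw [Pi.mul_apply]
    simp only [hNN]
    rw [← hN, br]
    generalize NormedSpace.exp (t • -X) = a
    generalize N (NormedSpace.exp (t • X)) = c
    generalize NormedSpace.exp (t • X) = e
    simp only [mul_sub, sub_mul, add_mul, mul_neg, neg_mul, Matrix.mul_assoc]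
    abel
  have hc : f 1 = f 0 := by
    have h1 : Differentiable ℂ f := fun t => (hd t).differentiableAt
    exact is_const_of_deriv_eq_zero h1 (fun t => (hd t).deriv) 1 0
  simp only [hf, one_smul, zero_smul, NormedSpace.exp_zero, hNN, Matrix.one_mul, Matrix.mul_one]
    at hc
  exact hc

end

theorem pCBS.{v} (h1 : StCAL) : StCBS.{v} := by
  intro n _ _ g _ _ _ b
  refine ⟨cbs_br b, cbs_lie b, fun _ => cbs_kil b, cbs_change b, fun _ => cbs_der b, fun x =>
    ⟨cbs_dact b x, ?_⟩⟩
  funext i
  set N : Matrix n n ℂ →ₗ[ℂ] Matrix n n ℂ :=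
    { toFun := fun E => ∑ j, E j i • arr b j
      map_add' := fun E F => by simp [add_smul, Finset.sum_add_distrib]
      map_smul' := fun c E => by simp [Finset.smul_sum, smul_smul] } with hNdef
  have hNa : ∀ E, N E = ∑ j, E j i • arr b j := fun E => rfl
  have hN : ∀ E, br (-(adM b x)) (N E) = N (-(adM b x) * E) := by
    intro E
    have e1 : br (-(adM b x)) (N E) = - br (adM b x) (N E) := by
      simp only [br, neg_mul, mul_neg]
      abel
    have e2 : N (-(adM b x) * E) = - N (adM b x * E) := by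
      rw [neg_mul, map_neg]
    rw [e1, e2, hNa, ← cbs_sum, cbs_br, hNa, ← cbs_sum]
    congr 2
    rw [lie_sum]
    simp only [lie_smul, cbs_bracket, Finset.smul_sum, smul_smul, mul_apply, Finset.sum_smul]
    rw [Finset.sum_comm]
    refine Finset.sum_congr rfl fun j _ => Finset.sum_congr rfl fun k _ => ?_
    rw [mul_comm]
  have h2 := cbs_exp (-(adM b x)) N hN
  rw [neg_neg, Matrix.exp_neg, hNa, hNa] at h2
  have h3 : ∑ j, (1 : Matrix n n ℂ) j i • arr b j = arr b i := by
    rw [Finset.sum_eq_single i]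
    · simp
    · intro j _ hj
      simp [hj]
    · simp
  rw [h3] at h2
  rw [← h2, gact, Finset.mul_sum, Finset.sum_mul]
  refine Finset.sum_congr rfl fun j _ => ?_
  rw [mul_smul_comm, smul_mul_assoc]

end Pool.Agent.Helper97.NO
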