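import Pool.Agent.Helper67.NO.St3

/-! MODULE LOW of project NO: uniform descent directions in a Lie subalgebra closed under the
adjoint. -/

set_option autoImplicit false

namespace Pool.Agent.Helper97.NO

open Pool.Agent.Helper67.NO
open Matrix
open scoped Matrix.Norms.Frobenius ContDiff Topology

section

variable {ι : Type} [Fintype ι] [DecidableEq ι]

/-- the Frobenius norm as a trace -/
theorem low_fro (x : Matrix ι ι ℂ) : ‖x‖ ^ 2 = (trace (xᴴ * x)).re := by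
  have h0 : (0 : ℝ) ≤ ∑ i, ∑ j, ‖x i j‖ ^ (2 : ℝ) :=
    Finset.sum_nonneg fun i _ => Finset.sum_nonneg fun j _ => Real.rpow_nonneg (norm_nonneg _) _
  rw [Matrix.frobenius_norm_def, ← Real.rpow_natCast, ← Real.rpow_mul h0]
  norm_num
  simp only [trace, diag_apply, mul_apply, conjTranspose_apply, Complex.re_sum]
  rw [Finset.sum_comm]
  refine Finset.sum_congr rfl fun j _ => Finset.sum_congr rfl fun i _ => ?_
  rw [← Complex.normSq_eq_norm_sq, Complex.star_def, ← Complex.normSq_eq_conj_mul_self,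
    Complex.ofReal_re]

theorem low_left (u z : Matrix ι ι ℂ) (hu : uᴴ * u = 1) : ‖u * z‖ = ‖z‖ := by
  have h : ‖u * z‖ ^ 2 = ‖z‖ ^ 2 := by
    rw [low_fro, low_fro, conjTranspose_mul, Matrix.mul_assoc, ← Matrix.mul_assoc uᴴ, hu,
      Matrix.one_mul]
  exact (pow_left_inj₀ (norm_nonneg _) (norm_nonneg _) two_ne_zero).1 h

theorem low_right (u z : Matrix ι ι ℂ) (hu : u * uᴴ = 1) : ‖z * u‖ = ‖z‖ := by
  have h : ‖z * u‖ ^ 2 = ‖z‖ ^ 2 := by
    rw [low_fro, low_fro, conjTranspose_mul, Matrix.mul_assoc, trace_mul_comm, Matrix.mul_assoc,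
      Matrix.mul_assoc, hu, Matrix.mul_one]
  exact (pow_left_inj₀ (norm_nonneg _) (norm_nonneg _) two_ne_zero).1 h

/-- scaling by the exponential of an element with `[X, A] = -s A` -/
theorem low_scale (A X : Matrix ι ι ℂ) (s : ℝ) (h : X * A = A * (X - (s : ℂ) • 1)) :
    NormedSpace.exp X * A = ((Real.exp (-s) : ℝ) : ℂ) • (A * NormedSpace.exp X) := by
  have h1 : SemiconjBy A (X - (s : ℂ) • 1) X := h.symm
  have h2 : SemiconjBy A (NormedSpace.exp (X - (s : ℂ) • 1)) (NormedSpace.exp X) :=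
    h1.exp_right
  have h3 : NormedSpace.exp (X - (s : ℂ) • (1 : Matrix ι ι ℂ))
      = ((Real.exp (-s) : ℝ) : ℂ) • NormedSpace.exp X := by
    have h4 : X - (s : ℂ) • (1 : Matrix ι ι ℂ) = (algebraMap ℂ (Matrix ι ι ℂ) (-(s : ℂ))) + X := by
      rw [Algebra.algebraMap_eq_smul_one, neg_smul]
      abel
    have h6 : NormedSpace.exp ((algebraMap ℂ (Matrix ι ι ℂ)) (-(s : ℂ)))
        = algebraMap ℂ (Matrix ι ι ℂ) (NormedSpace.exp (-(s : ℂ))) :=
      (NormedSpace.algebraMap_exp_comm _).symm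
    rw [h4, Matrix.exp_add_of_commute _ _ (Algebra.commute_algebraMap_left _ _), h6,
      ← Complex.exp_eq_exp_ℂ, Algebra.algebraMap_eq_smul_one, smul_mul_assoc, one_mul]
    push_cast
    rfl
  have h5 := h2.eq
  rw [← h5, h3, mul_smul_comm]

/-- the norm after the polar decomposition -/
theorem low_polar (A X Y : Matrix ι ι ℂ) (s : ℝ) (h : X * A = A * (X - (s : ℂ) • 1))
    (hY : Y.IsHermitian)
    (hXY : NormedSpace.exp Y * NormedSpace.exp Y = (NormedSpace.exp X)ᴴ * NormedSpace.exp X) :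
    ‖NormedSpace.exp Y * A * NormedSpace.exp (-Y)‖ = Real.exp (-s) * ‖A‖ := by
  have e1 : NormedSpace.exp Y * NormedSpace.exp (-Y) = 1 := by
    rw [Matrix.exp_neg]
    exact Matrix.mul_nonsing_inv _ ((Matrix.isUnit_iff_isUnit_det _).1 (Matrix.isUnit_exp Y))
  have e2 : NormedSpace.exp (-Y) * NormedSpace.exp Y = 1 := mul_eq_one_comm.1 e1
  have e3 : (NormedSpace.exp (-Y))ᴴ = NormedSpace.exp (-Y) := by
    rw [← Matrix.exp_conjTranspose, conjTranspose_neg, hY.eq]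
  set u : Matrix ι ι ℂ := NormedSpace.exp X * NormedSpace.exp (-Y) with hu
  have hu1 : uᴴ * u = 1 := by
    rw [hu, conjTranspose_mul, e3, Matrix.mul_assoc, ← Matrix.mul_assoc (NormedSpace.exp X)ᴴ, ← hXY,
      Matrix.mul_assoc, e1, Matrix.mul_one, e2]
  have hu2 : u * uᴴ = 1 := mul_eq_one_comm.1 hu1
  have h1 : u * (NormedSpace.exp Y * A * NormedSpace.exp (-Y))
      = ((Real.exp (-s) : ℝ) : ℂ) • (A * u) := by
    have h2 : u * (NormedSpace.exp Y * A * NormedSpace.exp (-Y))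
        = NormedSpace.exp X * (NormedSpace.exp (-Y) * NormedSpace.exp Y) * A
          * NormedSpace.exp (-Y) := by
      rw [hu]
      simp only [Matrix.mul_assoc]
    rw [h2, e2, Matrix.mul_one, low_scale A X s h, smul_mul_assoc, Matrix.mul_assoc, ← hu]
  rw [← low_left u _ hu1, h1, norm_smul, low_right u A hu2, Complex.norm_real,
    Real.norm_of_nonneg (Real.exp_pos _).le]

/-- nilpotent matrices of size `n` satisfy `A ^ n = 0` -/
theorem lowL_nil (A : Matrix ι ι ℂ) (hA : IsNilpotent A) : A ^ Fintype.card ι = 0 := by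
  have h1 := (Matrix.isNilpotent_charpoly_sub_pow_of_isNilpotent hA).eq_zero
  have h2 := Matrix.aeval_self_charpoly A
  rw [sub_eq_zero.1 h1] at h2
  simpa using h2

end

theorem pLOW (h1 : StNIL) (h2 : StHPR) (h3 : StCVX) : StLOW := by
  intro ι κ _ _ _ _ lev L hIf hL δ M hδ
  obtain ⟨m₀, M₀, hm₀, hbd⟩ := hIf.bdd
  set M₁ : ℝ := max M₀ 1 with hM₁
  have hM₁p : 0 < M₁ := lt_of_lt_of_le one_pos (le_max_right _ _)
  set K : Set (Matrix ι ι ℂ) :=
    {A | A ∈ L ∧ A ^ Fintype.card ι = 0 ∧ δ ≤ ‖A‖ ∧ ‖A‖ ≤ M} with hK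
  have hKc : IsCompact K := by
    have : ProperSpace (Matrix ι ι ℂ) := FiniteDimensional.proper ℂ (Matrix ι ι ℂ)
    refine Metric.isCompact_of_isClosed_isBounded ?_ ?_
    · have c1 : IsClosed {A : Matrix ι ι ℂ | A ∈ L} := Submodule.closed_of_finiteDimensional L
      have c2 : IsClosed {A : Matrix ι ι ℂ | A ^ Fintype.card ι = 0} :=
        isClosed_eq (continuous_pow _) continuous_const
      have c3 : IsClosed {A : Matrix ι ι ℂ | δ ≤ ‖A‖} := isClosed_le continuous_const continuous_norm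
      have c4 : IsClosed {A : Matrix ι ι ℂ | ‖A‖ ≤ M} := isClosed_le continuous_norm continuous_const
      exact c1.inter (c2.inter (c3.inter c4))
    · refine (Metric.isBounded_closedBall (x := (0 : Matrix ι ι ℂ)) (r := M)).subset ?_
      intro A hA
      rw [mem_closedBall_zero_iff]
      exact hA.2.2.2
  have key : ∃ R : ℝ, 0 < R ∧ ∀ A ∈ K, ∃ Y ∈ L, Y.IsHermitian ∧ ‖Y‖ ≤ R ∧
      M₁ * ‖NormedSpace.exp Y * A * NormedSpace.exp (-Y)‖ ≤ m₀ * δ / 2 := by
    refine hKc.induction_on (p := fun s => ∃ R : ℝ, 0 < R ∧ ∀ A ∈ s, ∃ Y ∈ L, Y.IsHermitian ∧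
      ‖Y‖ ≤ R ∧ M₁ * ‖NormedSpace.exp Y * A * NormedSpace.exp (-Y)‖ ≤ m₀ * δ / 2) ?_ ?_ ?_ ?_
    · exact ⟨1, one_pos, fun A hA => absurd hA (Set.notMem_empty A)⟩
    · rintro s t hst ⟨R, hR, h⟩
      exact ⟨R, hR, fun A hA => h A (hst hA)⟩
    · rintro s t ⟨R, hR, h⟩ ⟨R', hR', h'⟩
      refine ⟨max R R', lt_of_lt_of_le hR (le_max_left _ _), ?_⟩
      rintro A (hA | hA)
      · obtain ⟨Y, y1, y2, y3, y4⟩ := h A hA
        exact ⟨Y, y1, y2, y3.trans (le_max_left _ _), y4⟩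
      · obtain ⟨Y, y1, y2, y3, y4⟩ := h' A hA
        exact ⟨Y, y1, y2, y3.trans (le_max_right _ _), y4⟩
    · intro A₁ hA₁
      obtain ⟨hAL, hAn, hAd, hAM⟩ := hA₁
      obtain ⟨h, hh, hbr⟩ := h2 ι L hL.lie hL.star A₁ hAL ⟨_, hAn⟩
      -- the scale
      obtain ⟨s, hs⟩ : ∃ s : ℝ, M₁ * (Real.exp (-s) * ‖A₁‖) < m₀ * δ / 2 := by
        have ht : Filter.Tendsto (fun s : ℝ => M₁ * (Real.exp (-s) * ‖A₁‖)) Filter.atTop
            (𝓝 (M₁ * (0 * ‖A₁‖))) :=
          (Real.tendsto_exp_neg_atTop_nhds_zero.mul_const _).const_mul _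
        have hpos : M₁ * (0 * ‖A₁‖) < m₀ * δ / 2 := by
          rw [zero_mul, mul_zero]
          positivity
        exact (ht.eventually (gt_mem_nhds hpos)).exists
      have hX : (-(s : ℂ)) • h ∈ L := L.smul_mem _ hh
      obtain ⟨Y, hYL, hYh, hYe⟩ := hL.pd _ hX
      have hXA : ((-(s : ℂ)) • h) * A₁ = A₁ * ((-(s : ℂ)) • h - (s : ℂ) • 1) := by
        have e : h * A₁ = A₁ + A₁ * h := by
          have := hbr
          rw [br, sub_eq_iff_eq_add] at this
          exact this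
        rw [mul_sub, mul_smul_comm, mul_smul_comm, smul_mul_assoc, e, mul_one, smul_add, neg_smul,
          neg_smul]
        abel
      have hnorm := low_polar A₁ _ Y s hXA hYh hYe
      refine ⟨{A | M₁ * ‖NormedSpace.exp Y * A * NormedSpace.exp (-Y)‖ < m₀ * δ / 2}, ?_,
        ‖Y‖ + 1, by positivity, fun A hA => ⟨Y, hYL, hYh, by linarith, le_of_lt hA⟩⟩
      apply mem_nhdsWithin_of_mem_nhds
      have hc : Continuous (fun A : Matrix ι ι ℂ =>
          M₁ * ‖NormedSpace.exp Y * A * NormedSpace.exp (-Y)‖) := by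
        fun_prop
      refine (isOpen_lt hc continuous_const).mem_nhds ?_
      show M₁ * ‖NormedSpace.exp Y * A₁ * NormedSpace.exp (-Y)‖ < m₀ * δ / 2
      rw [hnorm]
      exact hs
  obtain ⟨R, hR, hkey⟩ := key
  refine ⟨m₀ * δ / 4, R, by positivity, hR, fun A hAL hRT hAd hAM => ?_⟩
  obtain ⟨hAn, hconj, -⟩ := h1 ι κ lev A hRT
  obtain ⟨Y, hYL, hYh, hYR, hYb⟩ := hkey A ⟨hAL, lowL_nil A hAn, hAd, hAM⟩
  refine ⟨Y, hYL, hYh, hYR, ?_⟩
  have hc := h3 ι κ lev hIf A hRT Y hYh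
  have hRT' : RT lev (NormedSpace.exp Y * A * NormedSpace.exp (-Y)) := by
    rw [Matrix.exp_neg]
    exact hconj _ (Matrix.isUnit_exp Y)
  have hb1 := (hbd A hRT).1
  have hb2 := (hbd _ hRT').2
  have hb3 : M₀ * ‖NormedSpace.exp Y * A * NormedSpace.exp (-Y)‖
      ≤ M₁ * ‖NormedSpace.exp Y * A * NormedSpace.exp (-Y)‖ :=
    mul_le_mul_of_nonneg_right (le_max_left _ _) (norm_nonneg _)
  have hb4 : m₀ * δ ≤ m₀ * ‖A‖ := mul_le_mul_of_nonneg_left hAd hm₀.le
  linarith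

end Pool.Agent.Helper97.NO
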