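import Pool.Agent.Helper67.NO.St1

/-! MODULE ORB of project NO: the chains over a matrix of the right rank type form one orbit. -/

set_option autoImplicit false

namespace Pool.Agent.Helper97.NO

open Pool.Agent.Helper67.NO
open Matrix

section

variable {ι κ : Type} [Fintype ι] [DecidableEq ι] [Fintype κ] [DecidableEq κ]

/-- the relation spanned by the pairs `(b ^ j v, b' ^ j v)`, `v` supported on `ι` -/
def Gam (b b' : Matrix (ι ⊕ κ) (ι ⊕ κ) ℂ) : Submodule ℂ ((ι ⊕ κ → ℂ) × (ι ⊕ κ → ℂ)) :=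
  Submodule.span ℂ {z | ∃ (j : ℕ) (v : ι ⊕ κ → ℂ), (∀ q : κ, v (.inr q) = 0) ∧
    z = ((b ^ j) *ᵥ v, (b' ^ j) *ᵥ v)}

theorem Gam_gen (b b' : Matrix (ι ⊕ κ) (ι ⊕ κ) ℂ) (j : ℕ) (v : ι ⊕ κ → ℂ)
    (hv : ∀ q : κ, v (.inr q) = 0) : ((b ^ j) *ᵥ v, (b' ^ j) *ᵥ v) ∈ Gam b b' :=
  Submodule.subset_span ⟨j, v, hv, rfl⟩

/-- a pair of matrices which maps the generators into `Gam` preserves it -/
theorem Gam_stable (b b' c c' : Matrix (ι ⊕ κ) (ι ⊕ κ) ℂ)
    (h : ∀ (j : ℕ) (v : ι ⊕ κ → ℂ), (∀ q : κ, v (.inr q) = 0) →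
      (c *ᵥ ((b ^ j) *ᵥ v), c' *ᵥ ((b' ^ j) *ᵥ v)) ∈ Gam b b')
    (z : (ι ⊕ κ → ℂ) × (ι ⊕ κ → ℂ)) (hz : z ∈ Gam b b') :
    (c *ᵥ z.1, c' *ᵥ z.2) ∈ Gam b b' := by
  induction hz using Submodule.span_induction with
  | mem z hz =>
    obtain ⟨j, v, hv, rfl⟩ := hz
    exact h j v hv
  | zero =>
    simp only [Prod.fst_zero, Prod.snd_zero, mulVec_zero]
    exact Submodule.zero_mem _
  | add x y _ _ hx hy =>
    have e : (c *ᵥ (x + y).1, c' *ᵥ (x + y).2) = (c *ᵥ x.1, c' *ᵥ x.2) + (c *ᵥ y.1, c' *ᵥ y.2) := by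
      simp [mulVec_add]
    rw [e]
    exact Submodule.add_mem _ hx hy
  | smul r x _ hx =>
    have e : (c *ᵥ (r • x).1, c' *ᵥ (r • x).2) = r • (c *ᵥ x.1, c' *ᵥ x.2) := by
      simp [mulVec_smul]
    rw [e]
    exact Submodule.smul_mem _ r hx

theorem Gam_b (b b' : Matrix (ι ⊕ κ) (ι ⊕ κ) ℂ)
    (z : (ι ⊕ κ → ℂ) × (ι ⊕ κ → ℂ)) (hz : z ∈ Gam b b') :
    (b *ᵥ z.1, b' *ᵥ z.2) ∈ Gam b b' := by
  refine Gam_stable b b' b b' (fun j v hv => ?_) z hz
  have := Gam_gen b b' (j + 1) v hv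
  rwa [pow_succ', pow_succ', ← mulVec_mulVec, ← mulVec_mulVec] at this

theorem Gam_swap (b b' : Matrix (ι ⊕ κ) (ι ⊕ κ) ℂ)
    (z : (ι ⊕ κ → ℂ) × (ι ⊕ κ → ℂ)) (hz : z ∈ Gam b b') : (z.2, z.1) ∈ Gam b' b := by
  induction hz using Submodule.span_induction with
  | mem z hz =>
    obtain ⟨j, v, hv, rfl⟩ := hz
    exact Gam_gen b' b j v hv
  | zero => exact Submodule.zero_mem _
  | add x y _ _ hx hy => exact Submodule.add_mem _ hx hy
  | smul r x _ hx => exact Submodule.smul_mem _ r hx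

/-- `a` kills the vectors supported on `ι` -/
theorem low_kill (lev : κ → ℕ) (a : Matrix (ι ⊕ κ) (ι ⊕ κ) ℂ) (ha : Low lev a) (v : ι ⊕ κ → ℂ)
    (hv : ∀ q : κ, v (.inr q) = 0) : a *ᵥ v = 0 := by
  funext p
  simp only [mulVec, dotProduct, Pi.zero_apply]
  refine Finset.sum_eq_zero fun q _ => ?_
  rcases q with q | q
  · have : a p (.inl q) = 0 := by
      by_contra h
      have := ha p (.inl q) h
      simp [lv] at this
    rw [this, zero_mul]
  · rw [hv q, mul_zero]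

/-- the image of `b` is supported on `κ` -/
theorem rai_inl (lev : κ → ℕ) (b : Matrix (ι ⊕ κ) (ι ⊕ κ) ℂ) (hb : Rai lev b) (w : ι ⊕ κ → ℂ)
    (p : ι) : (b *ᵥ w) (.inl p) = 0 := by
  simp only [mulVec, dotProduct]
  refine Finset.sum_eq_zero fun q _ => ?_
  have : b (.inl p) q = 0 := by
    by_contra h
    have := hb (.inl p) q h
    simp [lv] at this
  rw [this, zero_mul]

theorem bd_mulVec_zero (A : Matrix ι ι ℂ) (w : ι ⊕ κ → ℂ) (hw : ∀ p : ι, w (.inl p) = 0) :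
    (bd A (0 : Matrix κ κ ℂ)) *ᵥ w = 0 := by
  funext p
  simp only [mulVec, dotProduct, Pi.zero_apply]
  refine Finset.sum_eq_zero fun q _ => ?_
  rcases q with q | q
  · rw [hw q, mul_zero]
  · rcases p with p | p <;> simp [bd]

theorem bd_mulVec_inr (A : Matrix ι ι ℂ) (w : ι ⊕ κ → ℂ) (q : κ) :
    ((bd A (0 : Matrix κ κ ℂ)) *ᵥ w) (.inr q) = 0 := by
  simp only [mulVec, dotProduct]
  refine Finset.sum_eq_zero fun p _ => ?_
  rcases p with p | p <;> simp [bd]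

theorem ab_vec (A : Matrix ι ι ℂ) (a b : Matrix (ι ⊕ κ) (ι ⊕ κ) ℂ) (h : br a b = bd A 0)
    (w : ι ⊕ κ → ℂ) : a *ᵥ (b *ᵥ w) = b *ᵥ (a *ᵥ w) + bd A 0 *ᵥ w := by
  rw [← h, br, sub_mulVec, mulVec_mulVec, mulVec_mulVec]
  abel

theorem a_pow (lev : κ → ℕ) (A : Matrix ι ι ℂ) (a b : Matrix (ι ⊕ κ) (ι ⊕ κ) ℂ)
    (h : Ch lev A a b) (v : ι ⊕ κ → ℂ) (hv : ∀ q : κ, v (.inr q) = 0) (j : ℕ) :
    a *ᵥ ((b ^ (j + 1)) *ᵥ v) = (b ^ j) *ᵥ (bd A 0 *ᵥ v) := by
  obtain ⟨ha, hb, hab⟩ := h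
  induction j with
  | zero =>
    rw [zero_add, pow_one, pow_zero, one_mulVec, ab_vec A a b hab, low_kill lev a ha v hv,
      mulVec_zero, zero_add]
  | succ j ih =>
    rw [pow_succ' b (j + 1), ← mulVec_mulVec, ab_vec A a b hab, ih]
    have : bd A (0 : Matrix κ κ ℂ) *ᵥ ((b ^ (j + 1)) *ᵥ v) = 0 := by
      apply bd_mulVec_zero
      intro p
      rw [pow_succ' b j, ← mulVec_mulVec]
      exact rai_inl lev b hb _ p
    rw [this, add_zero, mulVec_mulVec, ← pow_succ' b j]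

theorem Gam_a (lev : κ → ℕ) (A : Matrix ι ι ℂ) (a b a' b' : Matrix (ι ⊕ κ) (ι ⊕ κ) ℂ)
    (h : Ch lev A a b) (h' : Ch lev A a' b')
    (z : (ι ⊕ κ → ℂ) × (ι ⊕ κ → ℂ)) (hz : z ∈ Gam b b') :
    (a *ᵥ z.1, a' *ᵥ z.2) ∈ Gam b b' := by
  refine Gam_stable b b' a a' (fun j v hv => ?_) z hz
  rcases j with _ | j
  · rw [pow_zero, pow_zero, one_mulVec, low_kill lev a h.1 v hv, low_kill lev a' h'.1 v hv]
    exact Submodule.zero_mem _
  · rw [a_pow lev A a b h v hv, a_pow lev A a' b' h' v hv]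
    exact Gam_gen b b' j _ (fun q => bd_mulVec_inr A v q)

/-- the two components have the same part in `ι` -/
theorem Gam_inl (lev : κ → ℕ) (b b' : Matrix (ι ⊕ κ) (ι ⊕ κ) ℂ) (hb : Rai lev b) (hb' : Rai lev b')
    (z : (ι ⊕ κ → ℂ) × (ι ⊕ κ → ℂ)) (hz : z ∈ Gam b b') (p : ι) : z.1 (.inl p) = z.2 (.inl p) := by
  induction hz using Submodule.span_induction with
  | mem z hz =>
    obtain ⟨j, v, hv, rfl⟩ := hz
    rcases j with _ | j
    · simp
    · simp only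
      rw [pow_succ' b j, pow_succ' b' j, ← mulVec_mulVec, ← mulVec_mulVec,
        rai_inl lev b hb, rai_inl lev b' hb']
  | zero => simp
  | add x y _ _ hx hy => simp [hx, hy]
  | smul r x _ hx => simp [hx]

/-- the level operator -/
def Lam (ι : Type) [Fintype ι] [DecidableEq ι] (lev : κ → ℕ) : Matrix (ι ⊕ κ) (ι ⊕ κ) ℂ :=
  diagonal (fun p => ((lv lev p : ℕ) : ℂ))

theorem Lam_b (lev : κ → ℕ) (b : Matrix (ι ⊕ κ) (ι ⊕ κ) ℂ) (hb : Rai lev b) :
    Lam ι lev * b = b * Lam ι lev + b := by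
  ext p q
  rw [Matrix.add_apply]
  simp only [Lam, diagonal_mul, mul_diagonal]
  by_cases h : b p q = 0
  · simp [h]
  · rw [hb p q h]
    push_cast
    ring

theorem Lam_pow (lev : κ → ℕ) (b : Matrix (ι ⊕ κ) (ι ⊕ κ) ℂ) (hb : Rai lev b) (v : ι ⊕ κ → ℂ)
    (hv : ∀ q : κ, v (.inr q) = 0) (j : ℕ) :
    Lam ι lev *ᵥ ((b ^ j) *ᵥ v) = (j : ℂ) • ((b ^ j) *ᵥ v) := by
  induction j with
  | zero =>
    rw [pow_zero, one_mulVec, Nat.cast_zero, zero_smul]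
    funext p
    rcases p with p | p
    · simp [Lam, mulVec_diagonal, lv]
    · simp [Lam, mulVec_diagonal, hv p]
  | succ j ih =>
    rw [pow_succ' b j, ← mulVec_mulVec, mulVec_mulVec (M := Lam ι lev), Lam_b lev b hb, add_mulVec,
      ← mulVec_mulVec, ih, mulVec_smul]
    push_cast
    rw [add_smul, one_smul]

theorem Gam_Lam (lev : κ → ℕ) (b b' : Matrix (ι ⊕ κ) (ι ⊕ κ) ℂ) (hb : Rai lev b) (hb' : Rai lev b')
    (z : (ι ⊕ κ → ℂ) × (ι ⊕ κ → ℂ)) (hz : z ∈ Gam b b') :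
    (Lam ι lev *ᵥ z.1, Lam ι lev *ᵥ z.2) ∈ Gam b b' := by
  refine Gam_stable b b' _ _ (fun j v hv => ?_) z hz
  rw [Lam_pow lev b hb v hv, Lam_pow lev b' hb' v hv]
  exact Submodule.smul_mem _ (j : ℂ) (Gam_gen b b' j v hv)

/-- `a` is nilpotent -/
theorem low_nil (lev : κ → ℕ) (a : Matrix (ι ⊕ κ) (ι ⊕ κ) ℂ) (ha : Low lev a) :
    ∃ m : ℕ, a ^ m = 0 := by
  have h : ∀ (m : ℕ) (p q : ι ⊕ κ), (a ^ m) p q ≠ 0 → lv lev q = lv lev p + m := by
    intro m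
    induction m with
    | zero =>
      intro p q hpq
      rw [pow_zero] at hpq
      have : p = q := by
        by_contra hne
        exact hpq (one_apply_ne hne)
      rw [this, add_zero]
    | succ m ih =>
      intro p q hpq
      rw [pow_succ', mul_apply] at hpq
      obtain ⟨r, -, hr⟩ := Finset.exists_ne_zero_of_sum_ne_zero hpq
      have h1 := ha p r (left_ne_zero_of_mul hr)
      have h2 := ih r q (right_ne_zero_of_mul hr)
      omega
  refine ⟨(∑ q : κ, lev q) + 2, ?_⟩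
  ext p q
  by_contra hpq
  have h1 := h _ p q hpq
  rcases q with q | q
  · simp [lv] at h1
  · have h2 : lev q ≤ ∑ q : κ, lev q := Finset.single_le_sum (fun _ _ => Nat.zero_le _)
      (Finset.mem_univ q)
    simp only [lv] at h1
    omega

/-- the relation is a function -/
theorem Gam_zero (lev : κ → ℕ) (A : Matrix ι ι ℂ) (a b a' b' : Matrix (ι ⊕ κ) (ι ⊕ κ) ℂ)
    (h : Ch lev A a b) (h' : Ch lev A a' b') (hs : Stab a' b') (w : ι ⊕ κ → ℂ)
    (hw : ((0 : ι ⊕ κ → ℂ), w) ∈ Gam b b') : w = 0 := by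
  by_contra hne
  have key : ∀ m : ℕ, ((0 : ι ⊕ κ → ℂ), (a' ^ m) *ᵥ w) ∈ Gam b b' ∧ (a' ^ m) *ᵥ w ≠ 0 := by
    intro m
    induction m with
    | zero => simpa using ⟨hw, hne⟩
    | succ m ih =>
      obtain ⟨h1, h2⟩ := ih
      have h3 := Gam_a lev A a b a' b' h h' _ h1
      simp only [mulVec_zero] at h3
      rw [mulVec_mulVec, ← pow_succ'] at h3
      refine ⟨h3, fun h4 => h2 ?_⟩
      apply hs.1
      · intro p
        exact (Gam_inl lev b b' h.2.1 h'.2.1 _ h1 p).symm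
      · rw [mulVec_mulVec, ← pow_succ', h4]
  obtain ⟨m, hm⟩ := low_nil lev a' h'.1
  apply (key m).2
  rw [hm, zero_mulVec]

theorem Gam_surj (h2 : StGEN) (lev : κ → ℕ) (a b b' : Matrix (ι ⊕ κ) (ι ⊕ κ) ℂ) (hb : Rai lev b)
    (hs : Stab a b) (w : ι ⊕ κ → ℂ) : ∃ w', (w, w') ∈ Gam b b' := by
  have h3 := (h2 ι κ lev a b hb hs).1 ((Gam b b').map (LinearMap.fst ℂ _ _)) ?_ ?_
  · have : w ∈ (Gam b b').map (LinearMap.fst ℂ _ _) := by
      rw [h3]
      exact Submodule.mem_top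
    obtain ⟨z, hz, rfl⟩ := (Submodule.mem_map).1 this
    exact ⟨z.2, hz⟩
  · intro v hv
    refine (Submodule.mem_map).2 ⟨(v, v), ?_, rfl⟩
    have := Gam_gen b b' 0 v hv
    simpa using this
  · intro v hv
    obtain ⟨z, hz, rfl⟩ := (Submodule.mem_map).1 hv
    exact (Submodule.mem_map).2 ⟨_, Gam_b b b' z hz, rfl⟩

/-- the linear map whose graph is `Gam` -/
theorem Gam_map (h2 : StGEN) (lev : κ → ℕ) (A : Matrix ι ι ℂ)
    (a b a' b' : Matrix (ι ⊕ κ) (ι ⊕ κ) ℂ) (h : Ch lev A a b) (h' : Ch lev A a' b')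
    (hs : Stab a b) (hs' : Stab a' b') :
    ∃ G : Matrix (ι ⊕ κ) (ι ⊕ κ) ℂ, ∀ w w', (w, w') ∈ Gam b b' ↔ G *ᵥ w = w' := by
  have huniq : ∀ w w₁ w₂, (w, w₁) ∈ Gam b b' → (w, w₂) ∈ Gam b b' → w₁ = w₂ := by
    intro w w₁ w₂ h₁ h₂
    have h₃ := Submodule.sub_mem _ h₁ h₂
    rw [Prod.mk_sub_mk, sub_self] at h₃
    exact sub_eq_zero.1 (Gam_zero lev A a b a' b' h h' hs' _ h₃)
  choose g hg using fun w => Gam_surj h2 lev a b b' h.2.1 hs w
  let L : (ι ⊕ κ → ℂ) →ₗ[ℂ] (ι ⊕ κ → ℂ) :=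
    { toFun := g
      map_add' := fun x y => huniq _ _ _ (hg (x + y)) (by
        have := Submodule.add_mem _ (hg x) (hg y)
        rwa [Prod.mk_add_mk] at this)
      map_smul' := fun r x => huniq _ _ _ (hg (r • x)) (by
        have := Submodule.smul_mem _ r (hg x)
        rwa [Prod.smul_mk] at this) }
  refine ⟨LinearMap.toMatrix' L, fun w w' => ?_⟩
  rw [LinearMap.toMatrix'_mulVec]
  constructor
  · intro hw
    exact huniq _ _ _ (hg w) hw
  · intro hw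
    have : g w = w' := hw
    rw [← this]
    exact hg w

theorem eq_of_vec (M N : Matrix (ι ⊕ κ) (ι ⊕ κ) ℂ) (h : ∀ w, M *ᵥ w = N *ᵥ w) : M = N := by
  apply Matrix.toLin'.injective
  apply LinearMap.ext
  intro w
  rw [toLin'_apply, toLin'_apply, h w]

end

/-- MODULE ORB. -/
theorem pORB (h1 : StRNK) (h2 : StGEN) : StORB := by
  intro ι κ _ _ _ _ lev A a b a' b' hRT hc hc'
  have hs := h1 ι κ lev A a b hRT hc
  have hs' := h1 ι κ lev A a' b' hRT hc'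
  obtain ⟨G, hG⟩ := Gam_map h2 lev A a b a' b' hc hc' hs hs'
  obtain ⟨G', hG'⟩ := Gam_map h2 lev A a' b' a b hc' hc hs' hs
  have hGG : G' * G = 1 := by
    apply eq_of_vec
    intro w
    rw [← mulVec_mulVec, one_mulVec]
    exact (hG' _ _).1 (Gam_swap b b' _ ((hG w _).2 rfl))
  have hb : G * b = b' * G := by
    apply eq_of_vec
    intro w
    rw [← mulVec_mulVec, ← mulVec_mulVec]
    exact (hG _ _).1 (Gam_b b b' _ ((hG w _).2 rfl))
  have ha : G * a = a' * G := by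
    apply eq_of_vec
    intro w
    rw [← mulVec_mulVec, ← mulVec_mulVec]
    exact (hG _ _).1 (Gam_a lev A a b a' b' hc hc' _ ((hG w _).2 rfl))
  have hL : G * Lam ι lev = Lam ι lev * G := by
    apply eq_of_vec
    intro w
    rw [← mulVec_mulVec, ← mulVec_mulVec]
    exact (hG _ _).1 (Gam_Lam lev b b' hc.2.1 hc'.2.1 _ ((hG w _).2 rfl))
  have hcol : ∀ p q, G p q = (G *ᵥ (Pi.single q 1)) p := by
    intro p q
    rw [mulVec_single_one]
    rfl
  have hinl : ∀ q : ι, G *ᵥ (Pi.single (Sum.inl q) 1) = Pi.single (Sum.inl q) 1 := by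
    intro q
    refine (hG _ _).1 ?_
    have := Gam_gen b b' 0 (Pi.single (Sum.inl q : ι ⊕ κ) (1 : ℂ)) (fun r => by simp)
    rw [pow_zero, pow_zero, one_mulVec] at this
    exact this
  have hblk : ∀ (c : Matrix (ι ⊕ κ) (ι ⊕ κ) ℂ),
      (∀ q : ι, c *ᵥ (Pi.single (Sum.inl q) 1) = Pi.single (Sum.inl q) 1) →
      (∀ (q : κ) (p : ι), (c *ᵥ (Pi.single (Sum.inr q) 1)) (Sum.inl p) = 0) →
      c = bd 1 c.toBlocks₂₂ := by
    intro c h3 h4
    have hc : ∀ p q, c p q = (c *ᵥ (Pi.single q 1)) p := by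
      intro p q
      rw [mulVec_single_one]
      rfl
    ext p q
    rcases p with p | p <;> rcases q with q | q
    · rw [hc, h3]
      simp [bd, Pi.single_apply, one_apply]
    · rw [hc, h4]
      simp [bd]
    · rw [hc, h3]
      simp [bd]
    · simp [bd, toBlocks₂₂]
  have hGb : G = bd 1 G.toBlocks₂₂ := by
    refine hblk G hinl (fun q p => ?_)
    have := Gam_inl lev b b' hc.2.1 hc'.2.1 _ ((hG (Pi.single (Sum.inr q) 1) _).2 rfl) p
    exact this.symm.trans (by simp)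
  have hGb' : G' = bd 1 G'.toBlocks₂₂ := by
    refine hblk G' (fun q => ?_) (fun q p => ?_)
    · refine (hG' _ _).1 ?_
      have := Gam_gen b' b 0 (Pi.single (Sum.inl q : ι ⊕ κ) (1 : ℂ)) (fun r => by simp)
      rw [pow_zero, pow_zero, one_mulVec] at this
      exact this
    · have := Gam_inl lev b' b hc'.2.1 hc.2.1 _ ((hG' (Pi.single (Sum.inr q) 1) _).2 rfl) p
      exact this.symm.trans (by simp)
  refine ⟨G.toBlocks₂₂, ?_, ?_, ?_, ?_⟩
  · have h5 : G'.toBlocks₂₂ * G.toBlocks₂₂ = 1 := by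
      have h6 := hGG
      rw [hGb', hGb, bd, bd, fromBlocks_multiply] at h6
      have h7 := congrArg toBlocks₂₂ h6
      rw [toBlocks_fromBlocks₂₂] at h7
      simpa [← fromBlocks_one] using h7
    exact ⟨⟨G.toBlocks₂₂, G'.toBlocks₂₂, mul_eq_one_comm.1 h5, h5⟩, rfl⟩
  · intro p q hpq
    have h5 := congrFun (congrFun hL (Sum.inr p)) (Sum.inr q)
    simp only [Lam, mul_diagonal, diagonal_mul, lv] at h5
    have h6 : G (Sum.inr p) (Sum.inr q) ≠ 0 := hpq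
    rw [mul_comm] at h5
    have h7 := mul_right_cancel₀ h6 h5
    have h8 : lev q + 1 = lev p + 1 := by exact_mod_cast h7
    omega
  · rw [← hGb]
    exact ha
  · rw [← hGb]
    exact hb

end Pool.Agent.Helper97.NO
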